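import Pool.Agent.H413R3.Part.Sel

set_option autoImplicit false

/-!
# Even values of the number of `t`-multipartitions (MP_a3366f_nt)

For every `t` coprime to 6 and every residue class `ρ` modulo `2 ^ b`, at least
`√x log x / (50 * 2 ^ b)` of the integers `n ≤ x` lie in the class and have an even number of
`t`-multipartitions; this holds for all `x ≥ 2 ^ 120`, uniformly for `t ≤ (log x) ^ 2 / 50` and
`2 ^ b ≤ (log x) ^ 2 / 50`.

Method. Let `M = 2 ^ i > t` with `M ≡ t (mod 3)` and `m = (M - t) / 3`, which is odd. Modulo 2 the sum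
of the `p_t (n - M g_j)` over the generalised pentagonal numbers `g_j` is the coefficient of
`q ^ (8 n + m)` in the power `D ^ m` of the discriminant. By the nilpotency of the Hecke operator
`T_3` modulo 2 (file `H397R2/PP` of the starting repository, where the case `t = 1`, `b = 0` is
proved) this coefficient vanishes when `8 n + m` is exactly divisible by a suitable power of 3, of
size about `√(x / M)`, with `√M` of the order of `log x`. When the number of `j` is odd, one of the
`p_t (n - M g_j)` is even, and `n - M g_j ≡ n (mod 2 ^ b)` as `2 ^ b ∣ M`.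
-/

namespace Pool.Agent.Results.MP_a3366f_nt.EvenValues

theorem result (x t b ρ : ℕ) (hx : 2 ^ 120 ≤ x) (ht : Nat.Coprime t 6)
    (hxt : 50 * (t : ℝ) ≤ Real.log x ^ 2) (hb : 50 * (2 : ℝ) ^ b ≤ Real.log x ^ 2) :
    Real.sqrt x * Real.log x / (50 * 2 ^ b) ≤
      (((Finset.range (x + 1)).filter (fun n => n % 2 ^ b = ρ % 2 ^ b ∧
        Even (∑ y ∈ Finset.Nat.antidiagonalTuple t n,
          ∏ i, Fintype.card (Nat.Partition (y i))))).card : ℝ) :=
  Pool.Agent.H413R3.Part.main x t b ρ hx ht hxt hb

end Pool.Agent.Results.MP_a3366f_nt.EvenValues
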