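import Pool.Agent.H413R3.OddL.Fin

set_option autoImplicit false

/-!
# Odd values of the number of `t`-multipartitions for `t ≡ 1 (mod 12)` (MP_a3366f_nt)

For every `t ≡ 1 (mod 24)`, every `t ≡ 13 (mod 24)` for which some integer `(4 ^ r - t) / 3` has a
binary digit 1 at an odd position, and every `ε > 0`: for all large `x`, all `b` with
`2 ^ b ≤ (log x) ^ (2 - ε)` and every residue `ρ`, at least `√x (log x) ^ (1 - ε) / 2 ^ b` of the
integers `n ≤ x` with `n ≡ ρ (mod 2 ^ b)` have an odd number of `t`-multipartitions.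

Method: the one of `H307R2/OP` in the starting repository (`t = 1`, `b = 0`). Let
`m = (4 ^ r - t) / 3`. If `N` is a product of primes at which the coefficient of `D ^ m` modulo 2 is
odd, then `24 n + 4 ^ r u ^ 2 = 3 N + t` for some `u` and some `n` with `p_t n` odd. The number of
the prime factors of `N` in the classes 3 and 5 modulo 8 is read off from the binary digits of `m`
(Nicolas-Serre): `m = 2 sp a + 4 sp m' + 1` with `a` fixed and `m'` of size `2 ^ (r - 1)`; all but
a bounded number of the primes are `≡ 5 (mod 8)`. When `a = 0` and `t ≡ 1 (mod 24)` two primes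
`≡ 3 (mod 8)` can be allowed, by a computation of `T_3 ^ 2 T_5 ^ (m' - 2) D ^ m` (file `OddT/Alg2`).
-/

namespace Pool.Agent.Results.MP_a3366f_nt.OddValues

theorem result (t : ℕ) (ht : t % 24 = 1 ∨ (t % 24 = 13 ∧
      ∃ r i : ℕ, t < 4 ^ r ∧ Nat.testBit ((4 ^ r - t) / 3) (2 * i + 1) = true)) :
    ∀ ε : ℝ, 0 < ε → ∃ x0 : ℝ, ∀ x : ℕ, x0 ≤ x → ∀ b ρ : ℕ,
    (2 : ℝ) ^ b ≤ Real.log x ^ (2 - ε) →
    Real.sqrt x * Real.log x ^ (1 - ε) / 2 ^ b ≤
      (((Finset.range (x + 1)).filter (fun n => n % 2 ^ b = ρ % 2 ^ b ∧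
        Odd (∑ y ∈ Finset.Nat.antidiagonalTuple t n,
          ∏ i, Fintype.card (Nat.Partition (y i))))).card : ℝ) := by
  rcases ht with h | ⟨h, hbit⟩
  · exact Pool.Agent.H413R3.OddL.finalL t (by omega) (Or.inl h)
  · exact Pool.Agent.H413R3.OddL.finalL t (by omega) (Or.inr hbit)

end Pool.Agent.Results.MP_a3366f_nt.OddValues
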